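import Pool.Agent.Helper89.CYC.C4b
import Pool.Agent.Helper10.CYC.PieceC

/-!
# Lists of roots, norm of powers of `X`, and the T1 half of ST_CORE
-/

set_option autoImplicit false
set_option linter.unusedSectionVars false

namespace Pool.Agent.Helper89.CYC

open Finset Polynomial
open Pool.Agent.Helper10.CYC (dd dd_perm2 dd_rep Rel u1 u2 col1)
open Pool.Agent.Helper42.CYC

/-! ## Lists with multiplicities -/

/-- A list `y` of the points `v ∈ V`, each `p v` times. -/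
lemma exists_list {K : Type} [Field K] (V : Finset K) (p : K → ℕ) (h : ℕ)
    (hh : ∑ v ∈ V, p v = h) :
    ∃ y : Fin h → K, (univ : Finset (Fin h)).val.map y = ∑ v ∈ V, p v • ({v} : Multiset K) := by
  classical
  set T : Multiset K := ∑ v ∈ V, p v • ({v} : Multiset K) with hT
  have hc : T.card = h := by
    rw [hT, Multiset.card_sum, ← hh]
    refine sum_congr rfl (fun v _ => ?_)
    simp
  have hl : T.toList.length = h := by rw [Multiset.length_toList, hc]
  refine ⟨fun i => T.toList.get (Fin.cast hl.symm i), ?_⟩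
  rw [Fin.univ_val_map]
  have h1 : List.ofFn (fun i : Fin h => T.toList.get (Fin.cast hl.symm i)) = T.toList := by
    subst hl
    exact List.ofFn_get _
  rw [h1, Multiset.coe_toList]

lemma prod_list {K M : Type*} [Field K] [CommMonoid M] (V : Finset K) (p : K → ℕ) (F : K → M) :
    (Multiset.map F (∑ v ∈ V, p v • ({v} : Multiset K))).prod = ∏ v ∈ V, F v ^ p v := by
  classical
  induction V using Finset.induction_on with
  | empty => simp
  | insert a s ha ih =>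
    rw [sum_insert ha, Multiset.map_add, Multiset.prod_add, ih, prod_insert ha]
    congr 1
    rw [Multiset.map_nsmul, Multiset.prod_nsmul, Multiset.map_singleton, Multiset.prod_singleton]

lemma list_prod {K : Type} {M : Type*} [Field K] [CommMonoid M] {V : Finset K} {p : K → ℕ} {h : ℕ}
    {y : Fin h → K}
    (hy : (univ : Finset (Fin h)).val.map y = ∑ v ∈ V, p v • ({v} : Multiset K)) (F : K → M) :
    ∏ i, F (y i) = ∏ v ∈ V, F v ^ p v := by
  rw [← prod_list V p F, ← hy, Multiset.map_map]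
  rfl

lemma list_index {K : Type} [Field K] {V : Finset K} {p : K → ℕ} {h : ℕ}
    {y : Fin h → K}
    (hy : (univ : Finset (Fin h)).val.map y = ∑ v ∈ V, p v • ({v} : Multiset K)) {ρ : K}
    (hρ : ρ ∈ V) (hp : 1 ≤ p ρ) : ∃ i, y i = ρ := by
  classical
  have h1 : ρ ∈ (univ : Finset (Fin h)).val.map y := by
    rw [hy, Multiset.mem_sum]
    refine ⟨ρ, hρ, ?_⟩
    rw [Multiset.mem_nsmul_of_ne_zero (by omega)]
    exact Multiset.mem_singleton_self ρ
  obtain ⟨i, _, hi⟩ := Multiset.mem_map.1 h1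
  exact ⟨i, hi⟩

lemma list_erase {K : Type} [Field K] {V : Finset K} {p : K → ℕ} {h : ℕ}
    {y : Fin h → K}
    (hy : (univ : Finset (Fin h)).val.map y = ∑ v ∈ V, p v • ({v} : Multiset K)) {ρ : K}
    (hρ : ρ ∈ V) (hp : 1 ≤ p ρ) {m : Fin h} (hm : y m = ρ) :
    (univ.erase m).val.map y = ∑ v ∈ V, pm p ρ v • ({v} : Multiset K) := by
  classical
  have h1 : y m ::ₘ (univ.erase m).val.map y = (univ : Finset (Fin h)).val.map y := by
    rw [Finset.erase_val, ← Multiset.map_cons, Multiset.cons_erase (mem_univ m)]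
  have h2 : ρ ::ₘ ∑ v ∈ V, pm p ρ v • ({v} : Multiset K) = ∑ v ∈ V, p v • ({v} : Multiset K) := by
    rw [← Finset.add_sum_erase V _ hρ, ← Finset.add_sum_erase V (fun v => p v • ({v} : Multiset K)) hρ]
    have e1 : pm p ρ ρ • ({ρ} : Multiset K) + {ρ} = p ρ • ({ρ} : Multiset K) := by
      unfold pm
      rw [if_pos rfl]
      obtain ⟨q, hq⟩ : ∃ q, p ρ = q + 1 := ⟨p ρ - 1, by omega⟩
      rw [hq, Nat.add_sub_cancel, succ_nsmul]
    have e2 : ∑ v ∈ V.erase ρ, pm p ρ v • ({v} : Multiset K)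
        = ∑ v ∈ V.erase ρ, p v • ({v} : Multiset K) := by
      refine sum_congr rfl (fun v hv => ?_)
      unfold pm
      rw [if_neg (ne_of_mem_erase hv), Nat.sub_zero]
    rw [e2, ← e1, ← Multiset.singleton_add]
    abel
  rw [hm, hy, ← h2, Multiset.cons_inj_right] at h1
  exact h1

lemma list_prod_erase {K : Type} {M : Type*} [Field K] [CommMonoid M] {V : Finset K} {p : K → ℕ}
    {h : ℕ} {y : Fin h → K}
    (hy : (univ : Finset (Fin h)).val.map y = ∑ v ∈ V, p v • ({v} : Multiset K)) {ρ : K}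
    (hρ : ρ ∈ V) (hp : 1 ≤ p ρ) {m : Fin h} (hm : y m = ρ) (F : K → M) :
    ∏ i ∈ univ.erase m, F (y i) = ∏ v ∈ V, F v ^ pm p ρ v := by
  rw [← prod_list V (pm p ρ) F, ← list_erase hy hρ hp hm, Multiset.map_map]
  rfl

lemma exists_interp {K : Type} [Field K] [CharP K 2] (V : Finset K) (a : K → K) :
    ∃ D : K[X], ∀ v ∈ V, D.eval (v ^ 2) = a v := by
  classical
  have hinj : Set.InjOn (fun v : K => v ^ 2) (V : Set K) := by
    intro x _ y _ hxy
    have hxy' : x ^ 2 = y ^ 2 := hxy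
    have h2 : (2 : K) = 0 := CharTwo.two_eq_zero
    have h1 : (x - y) ^ 2 = 0 := by linear_combination hxy' + (y ^ 2 - x * y) * h2
    have h3 : x - y = 0 := by
      rcases eq_or_ne (x - y) 0 with h | h
      · exact h
      · exact absurd h1 (pow_ne_zero 2 h)
    exact sub_eq_zero.1 h3
  refine ⟨Lagrange.interpolate V (fun v : K => v ^ 2) a, fun v hv => ?_⟩
  have h4 := Lagrange.eval_interpolate_at_node (s := V) (v := fun v : K => v ^ 2) (i := v) a hinj hv
  exact h4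

/-! ## Consequences of the first order data -/

section FOfacts

variable {R K : Type} [CommRing R] [CharP R 2] [Field K] [CharP K 2] {red : R →+* K} {α : R} {h : ℕ}
  {S g f : R[X]} {V : Finset K} {p : K → ℕ} {Mi : Finset K}

lemma fo_ff (hFO : FO red α h S g f) : f = ff S g α := hFO.eq

lemma fo_g (hFO : FO red α h S g f) : ∀ m, h ≤ m → g.coeff m = 0 :=
  fun m hm => coeff_eq_zero_of_degree_lt (lt_of_lt_of_le hFO.degg (by exact_mod_cast hm))

lemma fo_monic (hFO : FO red α h S g f) : f.Monic := by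
  rw [fo_ff hFO]
  exact ff_monic α hFO.monic hFO.deg (fo_g hFO)

lemma fo_natDegree (hFO : FO red α h S g f) : f.natDegree = 2 * h := by
  have : Nontrivial R := red.domain_nontrivial
  rw [fo_ff hFO]
  exact ff_natDegree α hFO.monic hFO.deg (fo_g hFO)

lemma fo_sum (hFO : FO red α h S g f)
    (hSV : S.map red = ∏ v ∈ V, (X - C (v ^ 2)) ^ (p v)) : ∑ v ∈ V, p v = h := by
  have h1 : (S.map red).natDegree = h := by
    rw [hFO.monic.natDegree_map, hFO.deg]
  rw [hSV, natDegree_prod_of_monic _ _ (fun v _ => (monic_X_sub_C _).pow _)] at h1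
  rw [← h1]
  refine sum_congr rfl (fun v _ => ?_)
  rw [(monic_X_sub_C _).natDegree_pow, natDegree_X_sub_C, mul_one]

lemma fo_coeff_zero (hFO : FO red α h S g f) (h0 : (0 : K) ∉ V)
    (hSV : S.map red = ∏ v ∈ V, (X - C (v ^ 2)) ^ (p v)) : red (f.coeff 0) ≠ 0 := by
  have h1 : f.coeff 0 = S.coeff 0 := by
    have h2 := coeff_eo_even S (C α * g) 0
    rw [mul_zero] at h2
    rw [fo_ff hFO, ff_eq, h2]
  rw [h1, ← coeff_map, hSV, coeff_zero_eq_eval_zero, eval_prod]
  rw [prod_ne_zero_iff]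
  intro v hv
  have hv0 : v ≠ 0 := fun h => h0 (h ▸ hv)
  simp [hv0]

/-- Multiplication of all columns by a power of `X`. -/
lemma dd_X_pow_mul (hFO : FO red α h S g f) (N : ℕ) (c : Fin (2 * h) → R[X]) :
    dd f (fun j => X ^ N * c j) = f.coeff 0 ^ N * dd f c := by
  have hm := fo_monic hFO
  have hd := fo_natDegree hFO
  rw [dd_mul hm hd]
  congr 1
  have h1 : (fun j : Fin (2 * h) => (X : R[X]) ^ N * X ^ (j : ℕ))
      = fun j : Fin (2 * h) => X ^ ((j : ℕ) + N) := by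
    funext j
    rw [← pow_add, add_comm]
  rw [h1, dd_eq_DD f (fun j : Fin (2 * h) => (j : ℕ) + N), ← DD_Ico hm hd N]
  apply DD_congr
  ext a
  simp only [mem_image, mem_univ, true_and, mem_Ico]
  constructor
  · rintro ⟨i, rfl⟩
    have := i.2
    omega
  · intro ha
    exact ⟨⟨a - N, by omega⟩, by simp only; omega⟩

/-- C3 in terms of `V`, `p`, `Mi`: for every `Γ0 Γ1` the determinant is `α x` with `red x` the sum
over `Mi`. -/
lemma c3_V (hFO : FO red α h S g f) (hh : 1 ≤ h) (hred : Function.Surjective red)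
    (hp : ∀ v ∈ V, 1 ≤ p v) (hMi : Mi ⊆ V)
    (hSV : S.map red = ∏ v ∈ V, (X - C (v ^ 2)) ^ (p v))
    (hgV : g.map red = ∑ ρ ∈ Mi, C ρ * ∏ v ∈ V, (X - C (v ^ 2)) ^ (pm p ρ v)) (Γ0 Γ1 : R[X]) :
    ∃ x : R, dd f (col0 (2 * h) (h - 1)
        (Polynomial.expand R 2 Γ0 + X * Polynomial.expand R 2 Γ1) 1) = α * x ∧
      red x = ∑ ρ ∈ Mi, ρ * ∏ v ∈ V, (Γ1.map red).eval (v ^ 2) ^ (pm p ρ v) := by
  classical
  obtain ⟨y, hy⟩ := exists_list V p h (fo_sum hFO hSV)
  have hix : ∀ ρ, ∃ i : Fin h, ρ ∈ Mi → y i = ρ := by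
    intro ρ
    by_cases hρ : ρ ∈ Mi
    · obtain ⟨i, hi⟩ := list_index hy (hMi hρ) (hp ρ (hMi hρ))
      exact ⟨i, fun _ => hi⟩
    · exact ⟨⟨0, by omega⟩, fun h => absurd h hρ⟩
  choose ix hix using hix
  have hinj : Set.InjOn ix (Mi : Set K) := by
    intro a ha b hb hab
    rw [← hix a ha, ← hix b hb, hab]
  obtain ⟨x, hx1, hx2⟩ := st_c3 R K red α h hh S g f hFO hred (fun i => y i ^ 2)
    (by rw [hSV, list_prod hy (fun v => (X - C (v ^ 2) : K[X]))]) (Mi.image ix) y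
    (by
      rw [hgV, sum_image hinj]
      refine sum_congr rfl (fun ρ hρ => ?_)
      rw [hix ρ hρ, list_prod_erase hy (hMi hρ) (hp ρ (hMi hρ)) (hix ρ hρ)
        (fun v => (X - C (v ^ 2) : K[X]))]) Γ0 Γ1
  refine ⟨x, hx1, ?_⟩
  rw [hx2, sum_image hinj]
  refine sum_congr rfl (fun ρ hρ => ?_)
  rw [hix ρ hρ, list_prod_erase hy (hMi hρ) (hp ρ (hMi hρ)) (hix ρ hρ)
    (fun v => (Γ1.map red).eval (v ^ 2))]

end FOfacts

/-- The T1 half of ST_CORE. -/
theorem core_T1 (Lam K : Type) [CommRing Lam] [CharP Lam 2] [Field K] [CharP K 2]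
    [IsAlgClosed K] (red : Lam →+* K) (α : Lam) (h : ℕ) (hh : 2 ≤ h) (S g f : Lam[X])
    (hred : Function.Surjective red) (hα : ∀ x, α * x = 0 ↔ red x = 0)
    (hunit : ∀ x, red x ≠ 0 → IsUnit x) (hFO : FO red α h S g f) (V : Finset K) (p : K → ℕ)
    (Mi : Finset K) (h0 : (0 : K) ∉ V) (hp : ∀ v ∈ V, 1 ≤ p v) (hMi : Mi ⊆ V) (hne : Mi.Nonempty)
    (hSV : S.map red = ∏ v ∈ V, (X - C (v ^ 2)) ^ (p v))
    (hgV : g.map red = ∑ ρ ∈ Mi, C ρ * ∏ v ∈ V, (X - C (v ^ 2)) ^ (pm p ρ v)) :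
    ¬ (Rel f (h - 1) (u1 (2 * h) (h - 1))) := by
  classical
  intro hrel
  have hc := Pool.Agent.Helper10.CYC.st_c Lam (2 * h) (h - 1) (by omega) f hrel
  have hu := hunit _ (fo_coeff_zero hFO h0 hSV)
  have hc0 : ∀ Γ : Lam[X], dd f (col0 (2 * h) (h - 1) Γ 1) = 0 := by
    intro Γ
    have h1 := hc Γ
    have h2 : col1 (2 * h) (h - 1) Γ
        = fun j => X ^ (2 * (2 * h - (h - 1))) * col0 (2 * h) (h - 1) Γ 1 j := by
      funext j
      unfold col1 col0
      by_cases hj : (j : ℕ) < h - 1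
      · rw [if_pos hj, if_pos hj, pow_add]
        ring
      · rw [if_neg hj, if_neg hj, pow_add]
        ring
    rw [h2, dd_X_pow_mul hFO] at h1
    exact (hu.pow _).mul_right_eq_zero.1 h1
  have key : ∀ D : K[X], ∑ ρ ∈ Mi, ρ * ∏ v ∈ V, D.eval (v ^ 2) ^ (pm p ρ v) = 0 := by
    intro D
    obtain ⟨Γ1, hΓ1⟩ := Polynomial.map_surjective red hred D
    obtain ⟨x, hx1, hx2⟩ := c3_V hFO (by omega) hred hp hMi hSV hgV 0 Γ1
    rw [hc0] at hx1
    rw [← hΓ1, ← hx2]
    exact (hα x).1 hx1.symm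
  have key2 : ∀ a : K → K, ∑ ρ ∈ Mi, ρ * ∏ v ∈ V, a v ^ (pm p ρ v) = 0 := by
    intro a
    obtain ⟨D, hD⟩ := exists_interp V a
    rw [← key D]
    refine sum_congr rfl (fun ρ _ => ?_)
    congr 1
    refine prod_congr rfl (fun v hv => ?_)
    rw [hD v hv]
  obtain ⟨ρ0, hρ0⟩ := hne
  have hρ0V := hMi hρ0
  have hρ00 : ρ0 ≠ 0 := fun h => h0 (h ▸ hρ0V)
  -- the value at the function `t` at `ρ0`, `1` elsewhere
  have hval : ∀ (t : K) (ρ : K), ∏ v ∈ V, (if v = ρ0 then t else 1) ^ (pm p ρ v)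
      = t ^ (pm p ρ ρ0) := by
    intro t ρ
    rw [Finset.prod_eq_single ρ0]
    · rw [if_pos rfl]
    · intro v _ hv
      rw [if_neg hv, one_pow]
    · intro h
      exact absurd hρ0V h
  have hsum : ∀ t : K, ρ0 * t ^ (p ρ0 - 1) + (∑ ρ ∈ Mi.erase ρ0, ρ) * t ^ (p ρ0) = 0 := by
    intro t
    have h1 := key2 (fun v => if v = ρ0 then t else 1)
    rw [← Finset.add_sum_erase Mi _ hρ0, hval] at h1
    rw [sum_mul, ← h1]
    congr 1
    · unfold pm
      rw [if_pos rfl]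
    · refine sum_congr rfl (fun ρ hρ => ?_)
      rw [hval]
      unfold pm
      rw [if_neg (ne_of_mem_erase hρ).symm, Nat.sub_zero]
  set c := ∑ ρ ∈ Mi.erase ρ0, ρ with hcdef
  obtain ⟨q, hq⟩ : ∃ q, p ρ0 = q + 1 := ⟨p ρ0 - 1, by have := hp ρ0 hρ0V; omega⟩
  rw [hq, Nat.add_sub_cancel] at hsum
  obtain ⟨t, ht⟩ := Infinite.exists_notMem_finset ({0, 1} : Finset K)
  rw [mem_insert, mem_singleton, not_or] at ht
  have h1 := hsum 1
  have h2 := hsum t
  rw [one_pow, one_pow, mul_one, mul_one] at h1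
  have h3 : t ^ q * (ρ0 + c * t) = 0 := by
    rw [← h2]
    ring
  rcases mul_eq_zero.1 h3 with h4 | h4
  · exact pow_ne_zero q ht.1 h4
  · have h5 : c * (t - 1) = 0 := by linear_combination h4 - h1
    rcases mul_eq_zero.1 h5 with h6 | h6
    · rw [h6, add_zero] at h1
      exact hρ00 h1
    · exact ht.2 (sub_eq_zero.1 h6)

end Pool.Agent.Helper89.CYC
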