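import Pool.Agent.Helper10.CYC.Blocks

/-!
# The determinants `dd F (X^c)` in characteristic two

Basic calculus: `dd` as an alternating map, multiplicativity, shift by one, dependence on the
set of exponents only.
-/

set_option autoImplicit false

namespace Pool.Agent.Helper89.CYC

open Finset Polynomial Pool.Agent.Helper10.CYC

variable {R : Type*} [CommRing R] {n : ℕ}

/-- Coordinates modulo `F`. -/
noncomputable def cl (n : ℕ) (F : R[X]) : R[X] →ₗ[R] (Fin n → R) :=
  LinearMap.pi (fun a => (lcoeff R (a : ℕ)).comp (modByMonicHom F))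

/-- `dd` as an alternating map. -/
noncomputable def ddA (n : ℕ) (F : R[X]) : R[X] [⋀^Fin n]→ₗ[R] R :=
  (Matrix.detRowAlternating).compLinearMap (cl n F)

lemma dd_eq (F : R[X]) (g : Fin n → R[X]) : dd F g = ddA n F g := by
  unfold dd
  rw [← Matrix.det_transpose]
  rfl

lemma mod_coeff_zero {F : R[X]} (hF : F.Monic) (hd : F.natDegree = n) (g : R[X]) (m : ℕ)
    (hm : n ≤ m) : (g %ₘ F).coeff m = 0 := by
  rcases subsingleton_or_nontrivial R with hR | hR
  · exact Subsingleton.elim _ _
  · refine coeff_eq_zero_of_degree_lt (lt_of_lt_of_le (degree_modByMonic_lt g hF) ?_)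
    rw [degree_eq_natDegree hF.ne_zero, hd]
    exact_mod_cast hm

lemma mod_eq_sum {F : R[X]} (hF : F.Monic) (hd : F.natDegree = n) (g : R[X]) :
    g %ₘ F = ∑ i : Fin n, C ((g %ₘ F).coeff (i : ℕ)) * X ^ (i : ℕ) := by
  ext a
  rw [finsetSum_coeff]
  simp only [coeff_C_mul, coeff_X_pow]
  by_cases ha : a < n
  · rw [Finset.sum_eq_single (⟨a, ha⟩ : Fin n)]
    · simp
    · intro b _ hb
      rw [if_neg, mul_zero]
      intro h
      exact hb (Fin.ext h.symm)
    · intro h
      exact absurd (mem_univ _) h
  · rw [mod_coeff_zero hF hd g a (by omega)]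
    symm
    refine Finset.sum_eq_zero (fun i _ => ?_)
    rw [if_neg, mul_zero]
    intro h
    have := i.2
    omega

lemma mul_mod_right {F : R[X]} (hF : F.Monic) (h g : R[X]) :
    (h * g) %ₘ F = (h * (g %ₘ F)) %ₘ F := by
  conv_lhs => rw [← modByMonic_add_div g F, mul_add, add_modByMonic]
  have : (h * (F * (g /ₘ F))) %ₘ F = 0 := by
    rw [modByMonic_eq_zero_iff_dvd hF]
    exact Dvd.intro (h * (g /ₘ F)) (by ring)
  rw [this, add_zero]

lemma dd_mul {F : R[X]} (hF : F.Monic) (hd : F.natDegree = n) (h : R[X]) (g : Fin n → R[X]) :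
    dd F (fun j => h * g j) = dd F (fun j : Fin n => h * X ^ (j : ℕ)) * dd F g := by
  unfold dd
  rw [← Matrix.det_mul]
  congr 1
  ext a j
  rw [Matrix.mul_apply]
  simp only [Matrix.of_apply]
  have hm : ∀ p : R[X], p %ₘ F = modByMonicHom F p := fun p => rfl
  have h1 : (h * (g j %ₘ F)) %ₘ F
      = ∑ i : Fin n, C ((g j %ₘ F).coeff (i : ℕ)) * ((h * X ^ (i : ℕ)) %ₘ F) := by
    conv_lhs => rw [mod_eq_sum hF hd (g j), mul_sum, hm, map_sum]
    refine sum_congr rfl (fun i _ => ?_)
    rw [← hm, mul_left_comm, ← smul_eq_C_mul, hm, map_smul, smul_eq_C_mul, ← hm]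
  rw [mul_mod_right hF, h1, finsetSum_coeff]
  refine sum_congr rfl (fun i _ => ?_)
  rw [coeff_C_mul, mul_comm]

lemma X_pow_mod {F : R[X]} (hF : F.Monic) (hd : F.natDegree = n) (j : ℕ) (hj : j < n) :
    (X ^ j : R[X]) %ₘ F = X ^ j := by
  rcases subsingleton_or_nontrivial R with hR | hR
  · exact Subsingleton.elim _ _
  · rw [modByMonic_eq_self_iff hF, degree_X_pow, degree_eq_natDegree hF.ne_zero, hd]
    exact_mod_cast hj

lemma dd_basis {F : R[X]} (hF : F.Monic) (hd : F.natDegree = n) :
    dd F (fun j : Fin n => X ^ (j : ℕ)) = 1 := by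
  unfold dd
  have : (Matrix.of fun a j : Fin n => ((X ^ (j : ℕ) : R[X]) %ₘ F).coeff (a : ℕ)) = 1 := by
    ext a j
    rw [Matrix.of_apply, X_pow_mod hF hd _ j.2, coeff_X_pow, Matrix.one_apply]
    simp only [Fin.ext_iff]
  rw [this, Matrix.det_one]

/-- Linearity in one column. -/
lemma dd_update_sum (F : R[X]) (g : Fin n → R[X]) (j : Fin n) {ι : Type*} (s : Finset ι)
    (c : ι → R) (p : ι → R[X]) :
    dd F (Function.update g j (∑ i ∈ s, C (c i) * p i))
      = ∑ i ∈ s, c i * dd F (Function.update g j (p i)) := by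
  simp only [dd_eq]
  rw [AlternatingMap.map_update_sum]
  refine sum_congr rfl (fun i _ => ?_)
  rw [← smul_eq_C_mul, AlternatingMap.map_update_smul, smul_eq_mul]

lemma dd_congr_mod (F : R[X]) (g g' : Fin n → R[X]) (h : ∀ j, g j %ₘ F = g' j %ₘ F) :
    dd F g = dd F g' := by
  unfold dd
  simp only [h]

lemma dd_update_mod {F : R[X]} (hF : F.Monic) (g : Fin n → R[X]) (j : Fin n) (p q : R[X])
    (h : F ∣ p - q) : dd F (Function.update g j p) = dd F (Function.update g j q) := by
  refine dd_congr_mod F _ _ (fun i => ?_)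
  by_cases hi : i = j
  · subst hi
    simp only [Function.update_self]
    have h1 := (modByMonic_eq_zero_iff_dvd hF).2 h
    rw [sub_modByMonic] at h1
    exact sub_eq_zero.1 h1
  · simp only [Function.update_of_ne hi]

/-- Cramer. -/
lemma dd_update_basis {F : R[X]} (hF : F.Monic) (hd : F.natDegree = n) (j : Fin n) (g : R[X]) :
    dd F (Function.update (fun i : Fin n => (X : R[X]) ^ (i : ℕ)) j g) = (g %ₘ F).coeff (j : ℕ) := by
  have h1 : F ∣ g - (∑ i : Fin n, C ((g %ₘ F).coeff (i : ℕ)) * X ^ (i : ℕ)) := by
    rw [← mod_eq_sum hF hd g]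
    refine ⟨g /ₘ F, ?_⟩
    have := modByMonic_add_div g F
    linear_combination -this
  rw [dd_update_mod hF _ _ _ _ h1, dd_update_sum, Finset.sum_eq_single j]
  · have : Function.update (fun i : Fin n => (X : R[X]) ^ (i : ℕ)) j (X ^ (j : ℕ))
        = fun i : Fin n => (X : R[X]) ^ (i : ℕ) := by
      exact Function.update_eq_self j (fun i : Fin n => (X : R[X]) ^ (i : ℕ))
    rw [this, dd_basis hF hd, mul_one]
  · intro i _ hi
    rw [dd_rep F _ i j hi, mul_zero]
    rw [Function.update_of_ne hi, Function.update_self]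
  · intro h
    exact absurd (mem_univ _) h

/-! ## Exponent sets -/

/-- The determinant of the powers `X^s`, `s ∈ S`. -/
noncomputable def DD (n : ℕ) (F : R[X]) (S : Finset ℕ) : R :=
  if h : S.card = n then dd F (fun i : Fin n => X ^ (S.orderEmbOfFin h i)) else 0

lemma exists_perm (c : Fin n → ℕ) (hc : Function.Injective c) (h : (univ.image c).card = n) :
    ∃ σ : Equiv.Perm (Fin n), ∀ i, (univ.image c).orderEmbOfFin h (σ i) = c i := by
  have h1 : ∀ i, ∃ j, (univ.image c).orderEmbOfFin h j = c i := by
    intro i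
    have h2 : c i ∈ univ.image c := mem_image_of_mem _ (mem_univ i)
    have h3 := Finset.range_orderEmbOfFin (univ.image c) h
    have h4 : c i ∈ Set.range ((univ.image c).orderEmbOfFin h) := by
      rw [h3]
      exact_mod_cast h2
    exact h4
  choose s hs using h1
  have hinj : Function.Injective s := by
    intro a b hab
    apply hc
    rw [← hs a, ← hs b, hab]
  refine ⟨Equiv.ofBijective s (Finite.injective_iff_bijective.1 hinj), fun i => ?_⟩
  exact hs i

/-- In characteristic two only the set of exponents matters. -/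
lemma dd_eq_DD [CharP R 2] (F : R[X]) (c : Fin n → ℕ) :
    dd F (fun i => X ^ (c i)) = DD n F (univ.image c) := by
  unfold DD
  by_cases hc : Function.Injective c
  · have h : (univ.image c).card = n := by
      rw [card_image_of_injective _ hc, card_univ, Fintype.card_fin]
    rw [dif_pos h]
    obtain ⟨σ, hσ⟩ := exists_perm c hc h
    rw [← dd_perm2 F (fun i : Fin n => X ^ ((univ.image c).orderEmbOfFin h i)) σ]
    simp only [hσ]
  · have hlt : (univ.image c).card < n := by
      have h1 : (univ.image c).card ≤ n := by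
        have := card_image_le (s := (univ : Finset (Fin n))) (f := c)
        simpa using this
      rcases lt_or_eq_of_le h1 with h2 | h2
      · exact h2
      · exfalso
        apply hc
        have h3 : (univ.image c).card = (univ : Finset (Fin n)).card := by
          rw [h2]; simp
        have h4 := Finset.card_image_iff.1 h3
        intro a b hab
        exact h4 (by simp) (by simp) hab
    rw [dif_neg (by omega)]
    rw [Function.not_injective_iff] at hc
    obtain ⟨a, b, hab, hne⟩ := hc
    exact dd_rep F _ a b hne (by simp only [hab])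

lemma DD_congr (F : R[X]) {S T : Finset ℕ} (h : S = T) : DD n F S = DD n F T := by rw [h]

lemma DD_card_ne (F : R[X]) {S : Finset ℕ} (h : S.card ≠ n) : DD n F S = 0 := by
  unfold DD
  rw [dif_neg h]

/-- Constant term of `X^n` modulo `F`. -/
lemma X_pow_n_mod {F : R[X]} (hF : F.Monic) (hd : F.natDegree = n) :
    (X ^ n : R[X]) %ₘ F = X ^ n - F := by
  rcases subsingleton_or_nontrivial R with hR | hR
  · exact Subsingleton.elim _ _
  · refine (div_modByMonic_unique 1 (X ^ n - F) hF ⟨by ring, ?_⟩).2
    rw [degree_eq_natDegree hF.ne_zero, hd, degree_lt_iff_coeff_zero]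
    intro m hm
    rw [coeff_sub, coeff_X_pow]
    rcases eq_or_lt_of_le hm with h | h
    · subst h
      rw [if_pos rfl]
      have := hF.coeff_natDegree
      rw [hd] at this
      rw [this, sub_self]
    · rw [if_neg (by omega), coeff_eq_zero_of_natDegree_lt (by omega), sub_zero]

/-- `DD` of `[0,n]` without `j`. -/
lemma DD_omit [CharP R 2] {F : R[X]} (hF : F.Monic) (hd : F.natDegree = n) (j : ℕ) (hj : j ≤ n) :
    DD n F ((range (n + 1)).erase j) = F.coeff j := by
  rcases eq_or_lt_of_le hj with h | h
  · subst h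
    have h1 : (range (j + 1)).erase j = univ.image (fun i : Fin j => (i : ℕ)) := by
      ext a
      simp only [mem_erase, mem_range, mem_image, mem_univ, true_and]
      constructor
      · intro h
        exact ⟨⟨a, by omega⟩, rfl⟩
      · rintro ⟨i, rfl⟩
        have := i.2
        omega
    rw [h1, ← dd_eq_DD, dd_basis hF hd]
    have := hF.coeff_natDegree
    rw [hd] at this
    exact this.symm
  · have h1 : (range (n + 1)).erase j
        = univ.image (Function.update (fun i : Fin n => (i : ℕ)) ⟨j, h⟩ n) := by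
      ext a
      simp only [mem_erase, mem_range, mem_image, mem_univ, true_and]
      constructor
      · intro h2
        by_cases ha : a = n
        · exact ⟨⟨j, h⟩, by rw [Function.update_self, ha]⟩
        · refine ⟨⟨a, by omega⟩, ?_⟩
          rw [Function.update_of_ne]
          intro h3
          exact h2.1 (congrArg Fin.val h3)
      · rintro ⟨i, hi⟩
        by_cases h3 : i = ⟨j, h⟩
        · rw [h3, Function.update_self] at hi
          omega
        · rw [Function.update_of_ne h3] at hi
          have h4 := i.2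
          have h5 : (i : ℕ) ≠ j := fun h6 => h3 (Fin.ext h6)
          omega
    rw [h1, ← dd_eq_DD]
    have h2 : (fun i : Fin n => (X : R[X]) ^ (Function.update (fun i : Fin n => (i : ℕ)) ⟨j, h⟩ n i))
        = Function.update (fun i : Fin n => (X : R[X]) ^ (i : ℕ)) ⟨j, h⟩ (X ^ n) := by
      funext i
      by_cases h3 : i = ⟨j, h⟩
      · rw [h3, Function.update_self, Function.update_self]
      · rw [Function.update_of_ne h3, Function.update_of_ne h3]
    rw [h2, dd_update_basis hF hd, X_pow_n_mod hF hd, coeff_sub, coeff_X_pow]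
    rw [if_neg (by simp only; omega), zero_sub, CharTwo.neg_eq]

lemma dd_X_mul [CharP R 2] {F : R[X]} (hF : F.Monic) (hd : F.natDegree = n) :
    dd F (fun j : Fin n => (X : R[X]) * X ^ (j : ℕ)) = F.coeff 0 := by
  have h1 : (fun j : Fin n => (X : R[X]) * X ^ (j : ℕ)) = fun j : Fin n => X ^ ((j : ℕ) + 1) := by
    funext j
    rw [pow_succ, mul_comm]
  rw [h1, dd_eq_DD F (fun j : Fin n => (j : ℕ) + 1), ← DD_omit hF hd 0 (Nat.zero_le n)]
  apply DD_congr
  ext a
  simp only [mem_erase, mem_range, mem_image, mem_univ, true_and]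
  constructor
  · rintro ⟨i, rfl⟩
    have := i.2
    omega
  · intro h
    exact ⟨⟨a - 1, by omega⟩, by simp only; omega⟩

/-- Shift of all exponents by one. -/
lemma DD_succ [CharP R 2] {F : R[X]} (hF : F.Monic) (hd : F.natDegree = n) (S : Finset ℕ) :
    DD n F (S.image (fun s => s + 1)) = F.coeff 0 * DD n F S := by
  by_cases hc : S.card = n
  · have h1 : S.image (fun s => s + 1)
        = univ.image (fun i : Fin n => S.orderEmbOfFin hc i + 1) := by
      ext a
      simp only [mem_image, mem_univ, true_and]
      constructor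
      · rintro ⟨s, hs, rfl⟩
        have h3 := Finset.range_orderEmbOfFin S hc
        have h4 : s ∈ Set.range (S.orderEmbOfFin hc) := by
          rw [h3]
          exact_mod_cast hs
        obtain ⟨i, hi⟩ := h4
        exact ⟨i, by rw [hi]⟩
      · rintro ⟨i, rfl⟩
        exact ⟨_, Finset.orderEmbOfFin_mem S hc i, rfl⟩
    rw [h1, ← dd_eq_DD]
    have h2 : (fun i : Fin n => (X : R[X]) ^ (S.orderEmbOfFin hc i + 1))
        = fun i : Fin n => X * X ^ (S.orderEmbOfFin hc i) := by
      funext i
      rw [pow_succ, mul_comm]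
    rw [h2, dd_mul hF hd, dd_X_mul hF hd]
    congr 1
    unfold DD
    rw [dif_pos hc]
  · rw [DD_card_ne F hc, mul_zero]
    apply DD_card_ne
    rw [card_image_of_injective _ (add_left_injective 1)]
    exact hc

lemma DD_add [CharP R 2] {F : R[X]} (hF : F.Monic) (hd : F.natDegree = n) (S : Finset ℕ)
    (a : ℕ) : DD n F (S.image (fun s => s + a)) = F.coeff 0 ^ a * DD n F S := by
  induction a with
  | zero => simp
  | succ a ih =>
    have h1 : S.image (fun s => s + (a + 1)) = (S.image (fun s => s + a)).image (fun s => s + 1) := by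
      rw [image_image]
      rfl
    rw [h1, DD_succ hF hd, ih]
    ring

/-- Consecutive exponents. -/
lemma DD_Ico [CharP R 2] {F : R[X]} (hF : F.Monic) (hd : F.natDegree = n) (a : ℕ) :
    DD n F (Ico a (a + n)) = F.coeff 0 ^ a := by
  have h1 : Ico a (a + n) = (univ.image (fun i : Fin n => (i : ℕ))).image (fun s => s + a) := by
    ext x
    simp only [mem_Ico, mem_image, mem_univ, true_and]
    constructor
    · intro h
      exact ⟨x - a, ⟨⟨x - a, by omega⟩, rfl⟩, by omega⟩
    · rintro ⟨y, ⟨i, rfl⟩, rfl⟩
      have := i.2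
      omega
  rw [h1, DD_add hF hd, ← dd_eq_DD, dd_basis hF hd, mul_one]

/-- `[0,n-1) ∪ {N}`. -/
lemma DD_top [CharP R 2] {F : R[X]} (hF : F.Monic) (hd : F.natDegree = n + 1) (N : ℕ) :
    DD (n + 1) F (insert N (range n)) = ((X ^ N : R[X]) %ₘ F).coeff n := by
  have h1 : insert N (range n)
      = univ.image (Function.update (fun i : Fin (n + 1) => (i : ℕ)) (Fin.last n) N) := by
    ext a
    simp only [mem_insert, mem_range, mem_image, mem_univ, true_and]
    constructor
    · rintro (h | h)
      · exact ⟨Fin.last n, by rw [Function.update_self, h]⟩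
      · refine ⟨⟨a, by omega⟩, ?_⟩
        rw [Function.update_of_ne]
        intro h3
        have := congrArg Fin.val h3
        simp only [Fin.val_last] at this
        omega
    · rintro ⟨i, hi⟩
      by_cases h3 : i = Fin.last n
      · rw [h3, Function.update_self] at hi
        exact Or.inl hi.symm
      · rw [Function.update_of_ne h3] at hi
        right
        have h4 := i.2
        have h5 : (i : ℕ) ≠ n := fun h6 => h3 (Fin.ext h6)
        omega
  rw [h1, ← dd_eq_DD]
  have h2 : (fun i : Fin (n + 1) => (X : R[X]) ^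
        (Function.update (fun i : Fin (n + 1) => (i : ℕ)) (Fin.last n) N i))
      = Function.update (fun i : Fin (n + 1) => (X : R[X]) ^ (i : ℕ)) (Fin.last n) (X ^ N) := by
    funext i
    by_cases h3 : i = Fin.last n
    · rw [h3, Function.update_self, Function.update_self]
    · rw [Function.update_of_ne h3, Function.update_of_ne h3]
  rw [h2, dd_update_basis hF hd]
  rfl

end Pool.Agent.Helper89.CYC
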