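import Pool.Agent.Helper89.CYC.DD

/-!
# Two determinant formulas to first order (C3 and C4 of even42.md)

`f = S(X^2) + al X g(X^2)` over a ring of characteristic two with `al^2 = 0`.
-/

set_option autoImplicit false

namespace Pool.Agent.Helper89.CYC

open Finset Polynomial
open Pool.Agent.Helper10.CYC (dd dd_perm2 dd_rep)

section modff

variable {R : Type*} [CommRing R] {h : ℕ}

/-- `S(X^2) + al X g(X^2)`. -/
noncomputable def ff (S g : R[X]) (al : R) : R[X] := expand R 2 S + C al * X * expand R 2 g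

lemma coeff_eo_even (A B : R[X]) (a : ℕ) :
    (expand R 2 A + X * expand R 2 B).coeff (2 * a) = A.coeff a := by
  rw [coeff_add, mul_comm 2 a, coeff_expand_mul (by norm_num)]
  rcases a with _ | a
  · simp
  · have : (a + 1) * 2 = (a * 2 + 1) + 1 := by ring
    rw [this, coeff_X_mul, coeff_expand (by norm_num), if_neg (by omega), add_zero]

lemma coeff_eo_odd (A B : R[X]) (a : ℕ) :
    (expand R 2 A + X * expand R 2 B).coeff (2 * a + 1) = B.coeff a := by
  rw [coeff_add, coeff_X_mul, mul_comm 2 a, coeff_expand_mul (by norm_num),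
    coeff_expand (by norm_num), if_neg (by omega), zero_add]

lemma eo_degree_lt {A B : R[X]} (hA : ∀ m, h ≤ m → A.coeff m = 0)
    (hB : ∀ m, h ≤ m → B.coeff m = 0) :
    ∀ m, 2 * h ≤ m → (expand R 2 A + X * expand R 2 B).coeff m = 0 := by
  intro m hm
  rcases Nat.even_or_odd' m with ⟨a, rfl | rfl⟩
  · rw [coeff_eo_even]
    exact hA a (by omega)
  · rw [coeff_eo_odd]
    exact hB a (by omega)

lemma ff_eq (S g : R[X]) (al : R) : ff S g al = expand R 2 S + X * expand R 2 (C al * g) := by
  unfold ff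
  rw [map_mul, expand_C]
  ring

lemma ff_lt {g : R[X]} (al : R) (hg : ∀ m, h ≤ m → g.coeff m = 0) :
    (X * expand R 2 (C al * g)).degree < ((2 * h : ℕ) : WithBot ℕ) := by
  rw [degree_lt_iff_coeff_zero]
  intro m hm
  have := eo_degree_lt (R := R) (h := h) (A := 0) (B := C al * g) (fun m _ => by simp)
    (fun m hm => by rw [coeff_C_mul, hg m hm, mul_zero]) m hm
  rwa [map_zero, zero_add] at this

lemma ff_monic {S g : R[X]} (al : R) (hS : S.Monic) (hd : S.natDegree = h)
    (hg : ∀ m, h ≤ m → g.coeff m = 0) : (ff S g al).Monic := by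
  rcases subsingleton_or_nontrivial R with hR | hR
  · exact Subsingleton.elim _ _
  rw [ff_eq]
  refine (hS.expand (by norm_num : 0 < 2)).add_of_left ?_
  rw [degree_eq_natDegree (hS.expand (by norm_num : 0 < 2)).ne_zero, natDegree_expand, hd,
    mul_comm h 2]
  exact ff_lt al hg

lemma ff_natDegree [Nontrivial R] {S g : R[X]} (al : R) (hS : S.Monic) (hd : S.natDegree = h)
    (hg : ∀ m, h ≤ m → g.coeff m = 0) : (ff S g al).natDegree = 2 * h := by
  rw [ff_eq, natDegree_add_eq_left_of_degree_lt, natDegree_expand, hd, mul_comm]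
  rw [degree_eq_natDegree (hS.expand (by norm_num : 0 < 2)).ne_zero, natDegree_expand, hd,
    mul_comm h 2]
  exact ff_lt al hg

/-- Division by `f`. -/
lemma mod_ff [CharP R 2] {S g : R[X]} {al : R} (hS : S.Monic) (hd : S.natDegree = h)
    (hg : ∀ m, h ≤ m → g.coeff m = 0) (hal : al * al = 0) (G0 G1 : R[X]) :
    (expand R 2 G0 + X * expand R 2 G1) %ₘ ff S g al
      = expand R 2 (G0 %ₘ S + C al * ((X * g * (G1 /ₘ S)) %ₘ S))
        + X * expand R 2 (G1 %ₘ S + C al * ((g * (G0 /ₘ S)) %ₘ S)) := by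
  rcases subsingleton_or_nontrivial R with hR | hR
  · exact Subsingleton.elim _ _
  have hf := ff_monic al hS hd hg
  refine (div_modByMonic_unique
    (expand R 2 (G0 /ₘ S) + X * expand R 2 (G1 /ₘ S)
      + C al * expand R 2 ((X * g * (G1 /ₘ S)) /ₘ S)
      + C al * X * expand R 2 ((g * (G0 /ₘ S)) /ₘ S)) _ hf ⟨?_, ?_⟩).2
  · have e0 := congrArg (expand R 2) (modByMonic_add_div G0 S)
    have e1 := congrArg (expand R 2) (modByMonic_add_div G1 S)
    have e2 := congrArg (expand R 2) (modByMonic_add_div (g * (G0 /ₘ S)) S)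
    have e3 := congrArg (expand R 2) (modByMonic_add_div (X * g * (G1 /ₘ S)) S)
    simp only [map_add, map_mul, expand_X, expand_C] at e0 e1 e2 e3 ⊢
    have h2 : (2 : R[X]) = 0 := CharTwo.two_eq_zero
    have hCal : (C al * C al : R[X]) = 0 := by rw [← C_mul, hal, C_0]
    unfold ff
    linear_combination e0 + X * e1 + C al * X * e2 + C al * e3
      + (X * expand R 2 g * expand R 2 ((X * g * (G1 /ₘ S)) /ₘ S)
        + X * expand R 2 g * X * expand R 2 ((g * (G0 /ₘ S)) /ₘ S)) * hCal
      + (C al * X * expand R 2 g * expand R 2 (G0 /ₘ S)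
        + C al * X ^ 2 * expand R 2 g * expand R 2 (G1 /ₘ S)) * h2
  · rw [degree_eq_natDegree hf.ne_zero, ff_natDegree al hS hd hg, degree_lt_iff_coeff_zero]
    refine eo_degree_lt ?_ ?_
    · intro m hm
      rw [coeff_add, coeff_C_mul, mod_coeff_zero hS hd _ m hm, mod_coeff_zero hS hd _ m hm,
        mul_zero, add_zero]
    · intro m hm
      rw [coeff_add, coeff_C_mul, mod_coeff_zero hS hd _ m hm, mod_coeff_zero hS hd _ m hm,
        mul_zero, add_zero]

end modff

section reindex

variable {R : Type*} [CommRing R] {k h : ℕ}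

lemma dd_reindex [CharP R 2] {ι : Type*} [Fintype ι] [DecidableEq ι] (f : R[X])
    (g : Fin k → R[X]) (er ec : ι ≃ Fin k) :
    dd f g = (Matrix.of fun x y : ι => (g (ec y) %ₘ f).coeff (er x : ℕ)).det := by
  rw [← dd_perm2 f g (er.symm.trans ec)]
  unfold dd
  rw [← Matrix.det_submatrix_equiv_self er]
  congr 1
  ext x y
  simp only [Matrix.submatrix_apply, Matrix.of_apply, Equiv.trans_apply, Equiv.symm_apply_apply]

/-- Even and odd rows. -/
noncomputable def er (h : ℕ) : Fin h ⊕ Fin h ≃ Fin (2 * h) :=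
  Equiv.ofBijective (Sum.elim (fun a => ⟨2 * (a : ℕ), by omega⟩)
    (fun a => ⟨2 * (a : ℕ) + 1, by omega⟩)) (by
    rw [Fintype.bijective_iff_injective_and_card]
    refine ⟨?_, by simp; ring⟩
    rintro (a | a) (b | b) hab
    · have := congrArg Fin.val hab
      simp only [Sum.elim_inl] at this
      rw [Fin.ext (show (a : ℕ) = b by omega)]
    · have := congrArg Fin.val hab
      simp only [Sum.elim_inl, Sum.elim_inr] at this
      omega
    · have := congrArg Fin.val hab
      simp only [Sum.elim_inl, Sum.elim_inr] at this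
      omega
    · have := congrArg Fin.val hab
      simp only [Sum.elim_inr] at this
      rw [Fin.ext (show (a : ℕ) = b by omega)])

lemma er_inl (a : Fin h) : ((er h (Sum.inl a) : Fin (2 * h)) : ℕ) = 2 * a := rfl

lemma er_inr (a : Fin h) : ((er h (Sum.inr a) : Fin (2 * h)) : ℕ) = 2 * a + 1 := rfl

end reindex

section EO

variable {R : Type*} [CommRing R] [CharP R 2] {h : ℕ}

lemma dd_mod_add (S : R[X]) (al : R) (A N : Fin h → R[X]) :
    (Matrix.of fun a i : Fin h => (A i %ₘ S + C al * (N i %ₘ S)).coeff (a : ℕ)).det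
      = dd S (fun i => A i + C al * N i) := by
  unfold dd
  congr 1
  ext a i
  rw [Matrix.of_apply, Matrix.of_apply, add_modByMonic, ← smul_eq_C_mul, ← smul_eq_C_mul,
    smul_modByMonic]

/-- The last `h` columns are `X^(2j+1)`. -/
lemma dd_even_part {S g : R[X]} {al : R} (hS : S.Monic) (hd : S.natDegree = h)
    (hg : ∀ m, h ≤ m → g.coeff m = 0) (hal : al * al = 0) (c : Fin (2 * h) → R[X])
    (e : Fin h ⊕ Fin h ≃ Fin (2 * h)) (U W : Fin h → R[X])
    (h1 : ∀ i, c (e (Sum.inl i)) = expand R 2 (U i) + X * expand R 2 (W i))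
    (h2 : ∀ j, c (e (Sum.inr j)) = X ^ (2 * (j : ℕ) + 1)) :
    dd (ff S g al) c = dd S (fun i => U i + C al * (X * g * (W i /ₘ S))) := by
  rcases subsingleton_or_nontrivial R with hR | hR
  · exact Subsingleton.elim _ _
  rw [dd_reindex (ff S g al) c (er h) e, ← dd_mod_add]
  have hbl := Matrix.det_fromBlocks_zero₁₂ (Matrix.of fun a i : Fin h =>
      (U i %ₘ S + C al * ((X * g * (W i /ₘ S)) %ₘ S)).coeff (a : ℕ))
    (Matrix.of fun a i : Fin h =>
      (W i %ₘ S + C al * ((g * (U i /ₘ S)) %ₘ S)).coeff (a : ℕ)) (1 : Matrix (Fin h) (Fin h) R)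
  rw [Matrix.det_one, mul_one] at hbl
  rw [← hbl]
  congr 1
  ext x y
  rcases y with i | j
  · rcases x with a | a
    · rw [Matrix.fromBlocks_apply₁₁, Matrix.of_apply, h1, mod_ff hS hd hg hal, er_inl,
        coeff_eo_even, Matrix.of_apply]
    · rw [Matrix.fromBlocks_apply₂₁, Matrix.of_apply, h1, mod_ff hS hd hg hal, er_inr,
        coeff_eo_odd, Matrix.of_apply]
  · have hX : (X ^ (2 * (j : ℕ) + 1) : R[X]) %ₘ ff S g al = X ^ (2 * (j : ℕ) + 1) :=
      X_pow_mod (ff_monic al hS hd hg) (ff_natDegree al hS hd hg) _ (by omega)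
    rcases x with a | a
    · rw [Matrix.fromBlocks_apply₁₂, Matrix.of_apply, h2, hX, er_inl, coeff_X_pow,
        if_neg (by omega), Matrix.zero_apply]
    · rw [Matrix.fromBlocks_apply₂₂, Matrix.of_apply, h2, hX, er_inr, coeff_X_pow,
        Matrix.one_apply]
      congr 1
      simp only [eq_iff_iff, Fin.ext_iff]
      omega

/-- The first `h` columns are `X^(2j)`. -/
lemma dd_odd_part {S g : R[X]} {al : R} (hS : S.Monic) (hd : S.natDegree = h)
    (hg : ∀ m, h ≤ m → g.coeff m = 0) (hal : al * al = 0) (c : Fin (2 * h) → R[X])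
    (e : Fin h ⊕ Fin h ≃ Fin (2 * h)) (U W : Fin h → R[X])
    (h1 : ∀ j, c (e (Sum.inl j)) = X ^ (2 * (j : ℕ)))
    (h2 : ∀ i, c (e (Sum.inr i)) = expand R 2 (U i) + X * expand R 2 (W i)) :
    dd (ff S g al) c = dd S (fun i => W i + C al * (g * (U i /ₘ S))) := by
  rcases subsingleton_or_nontrivial R with hR | hR
  · exact Subsingleton.elim _ _
  rw [dd_reindex (ff S g al) c (er h) e, ← dd_mod_add]
  have hbl := Matrix.det_fromBlocks_zero₂₁ (1 : Matrix (Fin h) (Fin h) R)
    (Matrix.of fun a i : Fin h =>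
      (U i %ₘ S + C al * ((X * g * (W i /ₘ S)) %ₘ S)).coeff (a : ℕ))
    (Matrix.of fun a i : Fin h =>
      (W i %ₘ S + C al * ((g * (U i /ₘ S)) %ₘ S)).coeff (a : ℕ))
  rw [Matrix.det_one, one_mul] at hbl
  rw [← hbl]
  congr 1
  ext x y
  rcases y with j | i
  · have hX : (X ^ (2 * (j : ℕ)) : R[X]) %ₘ ff S g al = X ^ (2 * (j : ℕ)) :=
      X_pow_mod (ff_monic al hS hd hg) (ff_natDegree al hS hd hg) _ (by omega)
    rcases x with a | a
    · rw [Matrix.fromBlocks_apply₁₁, Matrix.of_apply, h1, hX, er_inl, coeff_X_pow,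
        Matrix.one_apply]
      congr 1
      simp only [eq_iff_iff, Fin.ext_iff]
      omega
    · rw [Matrix.fromBlocks_apply₂₁, Matrix.of_apply, h1, hX, er_inr, coeff_X_pow,
        if_neg (by omega), Matrix.zero_apply]
  · rcases x with a | a
    · rw [Matrix.fromBlocks_apply₁₂, Matrix.of_apply, h2, mod_ff hS hd hg hal, er_inl,
        coeff_eo_even, Matrix.of_apply]
    · rw [Matrix.fromBlocks_apply₂₂, Matrix.of_apply, h2, mod_ff hS hd hg hal, er_inr,
        coeff_eo_odd, Matrix.of_apply]

end EO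

section first

variable {R : Type*} [CommRing R] {n : ℕ}

/-- First order expansion. -/
lemma dd_first {al : R} (hal : al * al = 0) (S : R[X]) (A N : Fin n → R[X]) :
    dd S (fun i => A i + C al * N i)
      = dd S A + al * ∑ i, dd S (Function.update A i (N i)) := by
  classical
  simp only [dd_eq]
  have h1 : (fun i => A i + C al * N i) = A + (fun i => al • N i) := by
    funext i
    rw [Pi.add_apply, smul_eq_C_mul]
  have hpow : ∀ t : Finset (Fin n), (ddA n S) (tᶜ.piecewise A (fun i => al • N i))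
      = al ^ t.card * (ddA n S) (tᶜ.piecewise A N) := by
    intro t
    have h2 := (ddA n S).toMultilinearMap.map_piecewise_smul (fun _ => al) (tᶜ.piecewise A N) t
    rw [Finset.prod_const, smul_eq_mul] at h2
    rw [AlternatingMap.coe_multilinearMap] at h2
    rw [← h2]
    congr 1
    funext i
    by_cases hi : i ∈ t
    · rw [Finset.piecewise_eq_of_notMem _ _ _ (by simpa using hi),
        Finset.piecewise_eq_of_mem _ _ _ hi, Finset.piecewise_eq_of_notMem _ _ _ (by simpa using hi)]
    · rw [Finset.piecewise_eq_of_mem _ _ _ (by simpa using hi),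
        Finset.piecewise_eq_of_notMem _ _ _ hi, Finset.piecewise_eq_of_mem _ _ _ (by simpa using hi)]
  have h3 := (ddA n S).toMultilinearMap.map_add_univ A (fun i => al • N i)
  rw [AlternatingMap.coe_multilinearMap] at h3
  rw [h1, h3]
  have h4 : ∑ s : Finset (Fin n), (ddA n S) (s.piecewise A (fun i => al • N i))
      = ∑ t : Finset (Fin n), al ^ t.card * (ddA n S) (tᶜ.piecewise A N) := by
    rw [← Equiv.sum_comp (Equiv.ofBijective (fun t : Finset (Fin n) => tᶜ) compl_bijective)]
    refine sum_congr rfl (fun t _ => ?_)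
    exact hpow t
  rw [h4]
  have h5 : ∀ t : Finset (Fin n), t ∉ insert ∅ (univ.image (fun i : Fin n => ({i} : Finset (Fin n))))
      → al ^ t.card * (ddA n S) (tᶜ.piecewise A N) = 0 := by
    intro t ht
    rw [mem_insert, not_or, mem_image] at ht
    have hc : 2 ≤ t.card := by
      rcases Nat.lt_or_ge t.card 2 with h6 | h6
      · exfalso
        have h7 : t.card = 0 ∨ t.card = 1 := by omega
        rcases h7 with h7 | h7
        · exact ht.1 (card_eq_zero.1 h7)
        · obtain ⟨i, hi⟩ := card_eq_one.1 h7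
          exact ht.2 ⟨i, mem_univ _, hi.symm⟩
      · exact h6
    obtain ⟨m, hm⟩ := Nat.exists_eq_add_of_le hc
    rw [hm, pow_add, pow_two, hal, zero_mul, zero_mul]
  rw [← Finset.sum_subset (subset_univ _) (fun t _ ht => h5 t ht), Finset.sum_insert, Finset.sum_image]
  · rw [card_empty, pow_zero, one_mul, compl_empty, Finset.piecewise_univ, mul_sum]
    congr 1
    refine sum_congr rfl (fun i _ => ?_)
    rw [card_singleton, pow_one]
    congr 2
    funext j
    by_cases hj : j = i
    · subst hj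
      rw [Finset.piecewise_eq_of_notMem _ _ _ (by simp), Function.update_self]
    · rw [Finset.piecewise_eq_of_mem _ _ _ (by simpa using hj), Function.update_of_ne hj]
  · intro a _ b _ hab
    exact singleton_injective hab
  · simp only [mem_image, mem_univ, true_and, not_exists]
    intro i
    exact singleton_ne_empty i

lemma al_mul_dd {al : R} (hal : al * al = 0) (S : R[X]) (A N : Fin n → R[X]) :
    al * dd S (fun i => A i + C al * N i) = al * dd S A := by
  rw [dd_first hal, mul_add, ← mul_assoc, hal, zero_mul, add_zero]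

end first

end Pool.Agent.Helper89.CYC
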