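import Pool.Agent.Helper89.CYC.C34

/-!
# C4: the trace identity
-/

set_option autoImplicit false

namespace Pool.Agent.Helper89.CYC

open Finset Polynomial
open Pool.Agent.Helper10.CYC (dd dd_perm2 dd_rep)

section matrix

open Matrix

variable {α : Type*} [CommRing α] {n : Type*} [Fintype n] [DecidableEq n]

/-- The adjugate commutes with everything that commutes with the matrix. -/
lemma adj_commute (A N : Matrix n n α) (h : A * N = N * A) : A.adjugate * N = N * A.adjugate := by
  let g : Matrix n n α → Matrix n n α[X] := fun M =>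
    M.map Polynomial.C + (Polynomial.X : α[X]) • (1 : Matrix n n α[X])
  let f' : Matrix n n α[X] →+* Matrix n n α := (Polynomial.evalRingHom 0).mapMatrix
  have f'_inv : f' (g A) = A := by
    ext
    simp [f', g]
  have f'_C : f' (N.map Polynomial.C) = N := by
    ext
    simp [f']
  have hu : IsRegular (g A).det := by
    refine Polynomial.Monic.isRegular ?_
    simp only [g, Polynomial.Monic.def, ← Polynomial.leadingCoeff_det_X_one_add_C A, add_comm]
  have hcomm : g A * N.map Polynomial.C = N.map Polynomial.C * g A := by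
    simp only [g, Matrix.add_mul, Matrix.mul_add]
    congr 1
    · have h1 := congrArg (fun M : Matrix n n α => M.map (Polynomial.C : α →+* α[X])) h
      simp only [Matrix.map_mul] at h1
      exact h1
    · rw [Matrix.smul_mul, Matrix.one_mul, Matrix.mul_smul, Matrix.mul_one]
  have key : (g A).adjugate * N.map Polynomial.C = N.map Polynomial.C * (g A).adjugate := by
    refine (Matrix.isRegular_of_isLeftRegular_det hu.left).left ?_
    simp only
    rw [← Matrix.mul_assoc, Matrix.mul_adjugate, Matrix.smul_mul, Matrix.one_mul,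
      ← Matrix.mul_assoc, hcomm, Matrix.mul_assoc, Matrix.mul_adjugate, Matrix.mul_smul,
      Matrix.mul_one]
  have h2 := congrArg f' key
  rw [map_mul, map_mul, RingHom.map_adjugate, f'_inv, f'_C] at h2
  exact h2

end matrix

section div

variable {R : Type*} [CommRing R] {h : ℕ}

lemma add_div {S : R[X]} (hS : S.Monic) (p q : R[X]) :
    (p + q) /ₘ S = p /ₘ S + q /ₘ S := by
  rcases subsingleton_or_nontrivial R with hR | hR
  · exact Subsingleton.elim _ _
  refine (div_modByMonic_unique _ (p %ₘ S + q %ₘ S) hS ⟨?_, ?_⟩).1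
  · have e1 := modByMonic_add_div p S
    have e2 := modByMonic_add_div q S
    linear_combination e1 + e2
  · exact lt_of_le_of_lt (degree_add_le _ _)
      (max_lt (degree_modByMonic_lt p hS) (degree_modByMonic_lt q hS))

lemma C_mul_div {S : R[X]} (hS : S.Monic) (a : R) (p : R[X]) :
    (C a * p) /ₘ S = C a * (p /ₘ S) := by
  rcases subsingleton_or_nontrivial R with hR | hR
  · exact Subsingleton.elim _ _
  refine (div_modByMonic_unique _ (C a * (p %ₘ S)) hS ⟨?_, ?_⟩).1
  · have e1 := modByMonic_add_div p S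
    linear_combination C a * e1
  · refine lt_of_le_of_lt ?_ (degree_modByMonic_lt p hS)
    rw [← smul_eq_C_mul]
    exact degree_smul_le _ _

lemma X_mul_div {S : R[X]} (hS : S.Monic) (hd : S.natDegree = h + 1) (p : R[X]) :
    (X * p) /ₘ S = X * (p /ₘ S) + C ((p %ₘ S).coeff h) := by
  rcases subsingleton_or_nontrivial R with hR | hR
  · exact Subsingleton.elim _ _
  refine (div_modByMonic_unique _ (X * (p %ₘ S) - C ((p %ₘ S).coeff h) * S) hS ⟨?_, ?_⟩).1
  · have e1 := modByMonic_add_div p S
    linear_combination X * e1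
  · rw [degree_eq_natDegree hS.ne_zero, hd, degree_lt_iff_coeff_zero]
    intro m hm
    obtain ⟨m, rfl⟩ := Nat.exists_eq_add_of_le hm
    have e2 : h + 1 + m = (h + m) + 1 := by ring
    rw [coeff_sub, coeff_C_mul, e2, coeff_X_mul]
    rcases m with _ | m
    · have e3 := hS.coeff_natDegree
      rw [hd] at e3
      rw [Nat.add_zero, e3, mul_one, sub_self]
    · have e5 : S.coeff (h + (m + 1) + 1) = 0 := coeff_eq_zero_of_natDegree_lt (by omega)
      rw [mod_coeff_zero hS hd _ (h + (m + 1)) (by omega), e5, mul_zero, sub_zero]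

end div

section trace

open Matrix

variable {R : Type*} [CommRing R] {h : ℕ}

/-- The matrix of the multiplication by `U`. -/
noncomputable def MM (h : ℕ) (S U : R[X]) : Matrix (Fin h) (Fin h) R :=
  Matrix.of fun a i => ((U * X ^ (i : ℕ)) %ₘ S).coeff (a : ℕ)

lemma cl_apply (S v : R[X]) (a : Fin h) : cl h S v a = (v %ₘ S).coeff (a : ℕ) := rfl

lemma cl_mul {S : R[X]} (hS : S.Monic) (hd : S.natDegree = h) (U v : R[X]) :
    cl h S (U * v) = MM h S U *ᵥ cl h S v := by
  funext a
  rw [cl_apply, mul_mod_right hS, Matrix.mulVec, dotProduct]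
  have hm : ∀ p : R[X], p %ₘ S = modByMonicHom S p := fun p => rfl
  conv_lhs => rw [mod_eq_sum hS hd v, mul_sum, hm, map_sum, finsetSum_coeff]
  refine sum_congr rfl (fun i _ => ?_)
  rw [mul_left_comm, ← smul_eq_C_mul, map_smul, ← hm, coeff_smul, smul_eq_mul, cl_apply, mul_comm]
  rfl

lemma MM_comm {S : R[X]} (hS : S.Monic) (hd : S.natDegree = h) (U V : R[X]) :
    MM h S U * MM h S V = MM h S V * MM h S U := by
  ext a i
  have e1 : (MM h S U * MM h S V) a i = cl h S (U * (V * X ^ (i : ℕ))) a := by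
    rw [cl_mul hS hd]; rfl
  have e2 : (MM h S V * MM h S U) a i = cl h S (V * (U * X ^ (i : ℕ))) a := by
    rw [cl_mul hS hd]; rfl
  rw [e1, e2, mul_left_comm]

/-- Cramer's rule. -/
lemma dd_update_eq (S : R[X]) (U v : R[X]) (i : Fin h) :
    dd S (Function.update (fun j : Fin h => U * X ^ (j : ℕ)) i v)
      = ((MM h S U).adjugate *ᵥ cl h S v) i := by
  rw [← Matrix.cramer_eq_adjugate_mulVec, Matrix.cramer_apply]
  unfold dd
  congr 1
  ext a j
  rw [Matrix.of_apply]
  by_cases hj : j = i
  · subst hj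
    rw [Function.update_self, Matrix.updateCol_self, cl_apply]
  · rw [Function.update_of_ne hj, Matrix.updateCol_ne hj]
    rfl

/-- The bilinear form. -/
noncomputable def BB (h : ℕ) (S U v x : R[X]) : R :=
  ∑ i : Fin h, ((MM h S U).adjugate *ᵥ cl h S v) i * ((x * X ^ (i : ℕ)) %ₘ S).coeff (h - 1)

/-- The trace. -/
noncomputable def TT (h : ℕ) (S U v W : R[X]) : R :=
  ∑ i : Fin h, ((MM h S U).adjugate *ᵥ cl h S (v * ((W * X ^ (i : ℕ)) /ₘ S))) i

lemma BB_swap {S : R[X]} (hS : S.Monic) (hd : S.natDegree = h) (U v x : R[X]) :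
    BB h S U (X * v) x = BB h S U v (X * x) := by
  unfold BB
  rw [cl_mul hS hd, Matrix.mulVec_mulVec, adj_commute _ _ (MM_comm hS hd U X),
    ← Matrix.mulVec_mulVec]
  set y := (MM h S U).adjugate *ᵥ cl h S v with hy
  have e1 : ∀ i : Fin h, (MM h S X *ᵥ y) i = ∑ j, MM h S X i j * y j := fun i => rfl
  simp only [e1, sum_mul]
  rw [sum_comm]
  refine sum_congr rfl (fun j _ => ?_)
  have e2 : ((X * x * X ^ (j : ℕ)) %ₘ S).coeff (h - 1)
      = ∑ i : Fin h, MM h S X i j * ((x * X ^ (i : ℕ)) %ₘ S).coeff (h - 1) := by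
    have hh : h - 1 < h := by
      have := j.2
      omega
    have e3 : (X * x * X ^ (j : ℕ) : R[X]) = x * (X * X ^ (j : ℕ)) := by ring
    have e4 := congrFun (cl_mul hS hd x (X * X ^ (j : ℕ))) ⟨h - 1, hh⟩
    rw [cl_apply] at e4
    rw [e3]
    refine e4.trans ?_
    rw [Matrix.mulVec, dotProduct]
    refine sum_congr rfl (fun i _ => ?_)
    rw [mul_comm]
    rfl
  rw [e2, mul_sum]
  refine sum_congr rfl (fun i _ => ?_)
  ring

lemma TT_add {S : R[X]} (hS : S.Monic) (U v W W' : R[X]) :
    TT h S U v (W + W') = TT h S U v W + TT h S U v W' := by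
  unfold TT
  rw [← sum_add_distrib]
  refine sum_congr rfl (fun i _ => ?_)
  rw [add_mul, add_div hS, mul_add, map_add, Matrix.mulVec_add, Pi.add_apply]

lemma TT_C_mul {S : R[X]} (hS : S.Monic) (U v W : R[X]) (a : R) :
    TT h S U v (C a * W) = a * TT h S U v W := by
  unfold TT
  rw [mul_sum]
  refine sum_congr rfl (fun i _ => ?_)
  rw [mul_assoc, C_mul_div hS, mul_left_comm, ← smul_eq_C_mul, map_smul, Matrix.mulVec_smul,
    Pi.smul_apply, smul_eq_mul]

lemma TT_X_mul {S : R[X]} (hS : S.Monic) (hd : S.natDegree = h) (U v x : R[X]) :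
    TT h S U v (X * x) = TT h S U (X * v) x + BB h S U v x := by
  unfold TT BB
  rw [← sum_add_distrib]
  refine sum_congr rfl (fun i _ => ?_)
  obtain ⟨h', rfl⟩ : ∃ h', h = h' + 1 := ⟨h - 1, by have := i.2; omega⟩
  rw [mul_assoc X x, X_mul_div hS hd, mul_add, map_add, Matrix.mulVec_add, Pi.add_apply]
  congr 1
  · rw [mul_left_comm, ← mul_assoc]
  · rw [mul_comm v, ← smul_eq_C_mul, map_smul, Matrix.mulVec_smul, Pi.smul_apply, smul_eq_mul,
      mul_comm, Nat.add_sub_cancel]

lemma TT_one {S : R[X]} (hS : S.Monic) (hd : S.natDegree = h) (U v : R[X]) :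
    TT h S U v 1 = 0 := by
  rcases subsingleton_or_nontrivial R with hR | hR
  · exact Subsingleton.elim _ _
  unfold TT
  refine sum_eq_zero (fun i _ => ?_)
  have : (1 * X ^ (i : ℕ) : R[X]) /ₘ S = 0 := by
    rw [one_mul, divByMonic_eq_zero_iff hS, degree_X_pow, degree_eq_natDegree hS.ne_zero, hd]
    exact_mod_cast i.2
  rw [this, mul_zero, map_zero, Matrix.mulVec_zero, Pi.zero_apply]

lemma TT_X_pow {S : R[X]} (hS : S.Monic) (hd : S.natDegree = h) (U : R[X]) (n : ℕ) :
    ∀ v : R[X], TT h S U v (X ^ (n + 1)) = ((n + 1 : ℕ) : R) * BB h S U v (X ^ n) := by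
  induction n with
  | zero =>
    intro v
    have e1 : (X ^ (0 + 1) : R[X]) = X * 1 := by ring
    rw [e1, TT_X_mul hS hd, TT_one hS hd, pow_zero]
    simp
  | succ n ih =>
    intro v
    rw [pow_succ' X (n + 1), TT_X_mul hS hd, ih, BB_swap hS hd, ← pow_succ']
    push_cast
    ring

/-- The trace vanishes on polynomials in `X^2`. -/
lemma TT_expand [CharP R 2] {S : R[X]} (hS : S.Monic) (hd : S.natDegree = h) (U v W : R[X]) :
    TT h S U v (expand R 2 W) = 0 := by
  induction W using Polynomial.induction_on' with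
  | add p q hp hq => rw [map_add, TT_add hS, hp, hq, add_zero]
  | monomial n a =>
    rw [← C_mul_X_pow_eq_monomial, map_mul, expand_C, map_pow, expand_X, TT_C_mul hS, ← pow_mul]
    rcases n with _ | n
    · rw [mul_zero, pow_zero, TT_one hS hd, mul_zero]
    · have e1 : 2 * (n + 1) = (2 * n + 1) + 1 := by ring
      rw [e1, TT_X_pow hS hd]
      have e2 : (((2 * n + 1 + 1 : ℕ)) : R) = 0 := by
        have h2 : (2 : R) = 0 := CharTwo.two_eq_zero
        push_cast
        linear_combination ((n : R) + 1) * h2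
      rw [e2, zero_mul, mul_zero]

end trace

end Pool.Agent.Helper89.CYC
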