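import Pool.Agent.Helper89.CYC.C4
import Pool.Agent.Helper42.CYC.StmtsC
import Pool.Agent.Helper57.CYC.Theta

/-!
# ST_C4, ST_C3 and ST_NORM of track C
-/

set_option autoImplicit false

namespace Pool.Agent.Helper89.CYC

open Finset Polynomial
open Pool.Agent.Helper10.CYC (dd dd_perm2 dd_rep)
open Pool.Agent.Helper42.CYC

theorem st_norm : ST_NORM := fun K _ _ y U => Pool.Agent.Helper57.CYC.dd_pow K y U

/-- Columns `0..h-1`, `h..2h-1`. -/
noncomputable def ec (h : ℕ) : Fin h ⊕ Fin h ≃ Fin (2 * h) :=
  finSumFinEquiv.trans (finCongr (by ring))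

lemma ec_inl (h : ℕ) (i : Fin h) : ((ec h (Sum.inl i) : Fin (2 * h)) : ℕ) = i := by
  simp [ec]

lemma ec_inr (h : ℕ) (i : Fin h) : ((ec h (Sum.inr i) : Fin (2 * h)) : ℕ) = h + i := by
  simp [ec, add_comm]

theorem st_c4 : ST_C4 := by
  intro R K _ _ _ _ red α h S g f hFO U W
  have hg : ∀ m, h ≤ m → g.coeff m = 0 := by
    intro m hm
    exact coeff_eq_zero_of_degree_lt (lt_of_lt_of_le hFO.degg (by exact_mod_cast hm))
  have hf : f = ff S g α := hFO.eq
  rw [hf]
  rw [dd_even_part hFO.monic hFO.deg hg hFO.sq _ (ec h) (fun i => U * X ^ (i : ℕ))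
    (fun i => expand R 2 W * X ^ (i : ℕ))]
  · rw [dd_first hFO.sq S (fun i => U * X ^ (i : ℕ))
      (fun i => X * g * ((expand R 2 W * X ^ (i : ℕ)) /ₘ S))]
    have h1 := TT_expand hFO.monic hFO.deg U (X * g) W
    unfold TT at h1
    have h2 : ∑ i : Fin h, dd S (Function.update (fun j : Fin h => U * X ^ (j : ℕ)) i
        (X * g * ((expand R 2 W * X ^ (i : ℕ)) /ₘ S))) = 0 := by
      rw [← h1]
      exact sum_congr rfl (fun i _ => dd_update_eq S U _ i)
    rw [h2, mul_zero, add_zero]
  · intro i
    unfold col0
    rw [ec_inl, if_pos i.2]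
    simp only [map_mul, map_pow, expand_X]
    ring
  · intro j
    unfold col0
    rw [ec_inr, if_neg (by omega), Nat.add_sub_cancel_left]
    ring

section C3

/-- The columns of C3: `X^(2j)`, `j < h`, first. -/
noncomputable def e3 (h : ℕ) : Fin (h + 1) ⊕ Fin (h + 1) ≃ Fin (2 * (h + 1)) :=
  Equiv.ofBijective (Sum.elim (fun j => ⟨h + (j : ℕ), by omega⟩)
    (fun i => if hi : (i : ℕ) < h then ⟨(i : ℕ), by omega⟩ else ⟨2 * h + 1, by omega⟩)) (by
    rw [Fintype.bijective_iff_injective_and_card]
    refine ⟨?_, by simp; ring⟩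
    rintro (a | a) (b | b) hab
    · have := congrArg Fin.val hab
      simp only [Sum.elim_inl] at this
      rw [Fin.ext (show (a : ℕ) = b by omega)]
    · exfalso
      have h1 := congrArg Fin.val hab
      simp only [Sum.elim_inl, Sum.elim_inr] at h1
      split_ifs at h1 with hb
      · simp only at h1
        omega
      · simp only at h1
        omega
    · exfalso
      have h1 := congrArg Fin.val hab
      simp only [Sum.elim_inl, Sum.elim_inr] at h1
      split_ifs at h1 with hb
      · simp only at h1
        omega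
      · simp only at h1
        omega
    · have h1 := congrArg Fin.val hab
      simp only [Sum.elim_inr] at h1
      split_ifs at h1 with ha hb hb
      · simp only at h1
        rw [Fin.ext h1]
      · simp only at h1
        omega
      · simp only at h1
        omega
      · rw [Fin.ext (show (a : ℕ) = b by omega)])

lemma e3_inl (h : ℕ) (j : Fin (h + 1)) :
    ((e3 h (Sum.inl j) : Fin (2 * (h + 1))) : ℕ) = h + j := rfl

lemma e3_inr (h : ℕ) (i : Fin (h + 1)) :
    ((e3 h (Sum.inr i) : Fin (2 * (h + 1))) : ℕ) = if (i : ℕ) < h then (i : ℕ) else 2 * h + 1 := by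
  have h1 : e3 h (Sum.inr i) = if hi : (i : ℕ) < h then ⟨(i : ℕ), by omega⟩
      else ⟨2 * h + 1, by omega⟩ := rfl
  rw [h1]
  split_ifs <;> rfl

lemma natDegree_prod_lin {K : Type*} [CommRing K] [Nontrivial K] {n : ℕ} (y : Fin n → K) :
    (∏ i, (X - C (y i))).natDegree = n := by
  rw [natDegree_prod_of_monic _ _ (fun i _ => monic_X_sub_C _)]
  simp

/-- Reduction to a factor of degree one less. -/
lemma dd_factor {K : Type*} [CommRing K] [CharP K 2] {h : ℕ} (c : K) {T : K[X]} (hT : T.Monic)
    (hTd : T.natDegree = h) (P : Fin (h + 1) → K[X]) (hP : P (Fin.last h) = T) :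
    dd ((X - C c) * T) P = dd T (fun i : Fin h => P i.castSucc) := by
  rcases subsingleton_or_nontrivial K with hR | hR
  · exact Subsingleton.elim _ _
  set S := (X - C c) * T with hS
  have hSm : S.Monic := (monic_X_sub_C c).mul hT
  have hSd : S.natDegree = h + 1 := by
    rw [hS, (monic_X_sub_C c).natDegree_mul hT, natDegree_X_sub_C, hTd, add_comm]
  -- the decomposition modulo `S`
  have hdec : ∀ p : K[X], p %ₘ S = p %ₘ T + C ((p /ₘ T).eval c) * T := by
    intro p
    refine (div_modByMonic_unique ((p /ₘ T) /ₘ (X - C c)) _ hSm ⟨?_, ?_⟩).2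
    · have e1 := modByMonic_add_div p T
      have e2 := modByMonic_add_div (p /ₘ T) (X - C c)
      rw [modByMonic_X_sub_C_eq_C_eval] at e2
      rw [hS]
      linear_combination e1 + T * e2
    · rw [degree_eq_natDegree hSm.ne_zero, hSd, degree_lt_iff_coeff_zero]
      intro m hm
      rw [coeff_add, coeff_C_mul, mod_coeff_zero hT hTd _ m (by omega),
        coeff_eq_zero_of_natDegree_lt (show T.natDegree < m by omega), mul_zero, add_zero]
  have hTS : T %ₘ S = T := by
    rw [modByMonic_eq_self_iff hSm, degree_eq_natDegree hSm.ne_zero, hSd,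
      degree_eq_natDegree hT.ne_zero, hTd]
    exact_mod_cast Nat.lt_succ_self h
  -- the matrix with the reduced columns
  set Q : Fin (h + 1) → K[X] := fun i => if (i : ℕ) < h then P i %ₘ T else T with hQ
  have h1 : dd S P = (Matrix.of fun a j : Fin (h + 1) => (Q j).coeff (a : ℕ)).det := by
    unfold dd
    rw [← Matrix.det_transpose, ← Matrix.det_transpose (Matrix.of fun a j : Fin (h + 1) =>
      (Q j).coeff (a : ℕ))]
    refine Matrix.det_eq_of_forall_row_eq_smul_add_const
      (fun i => if (i : ℕ) < h then (P i /ₘ T).eval c else 0) (Fin.last h) (by simp) ?_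
    intro j a
    simp only [Matrix.transpose_apply, Matrix.of_apply, hQ, Fin.val_last, lt_irrefl, if_false]
    by_cases hj : (j : ℕ) < h
    · rw [if_pos hj, if_pos hj, hdec, coeff_add, coeff_C_mul]
    · rw [if_neg hj, if_neg hj, zero_mul, add_zero]
      have : j = Fin.last h := Fin.ext (by simp only [Fin.val_last]; omega)
      rw [this, hP, hTS]
  rw [h1, ← Matrix.det_submatrix_equiv_self (finSumFinEquiv (m := h) (n := 1))]
  have h2 := Matrix.det_fromBlocks_zero₂₁
    (Matrix.of fun a i : Fin h => (P i.castSucc %ₘ T).coeff (a : ℕ))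
    (Matrix.of fun (a : Fin h) (_ : Fin 1) => T.coeff (a : ℕ)) (1 : Matrix (Fin 1) (Fin 1) K)
  rw [Matrix.det_one, mul_one] at h2
  unfold dd
  rw [← h2]
  congr 1
  ext x z
  rcases z with i | i
  · rcases x with a | a
    · rw [Matrix.fromBlocks_apply₁₁]
      simp only [Matrix.submatrix_apply, Matrix.of_apply, hQ, finSumFinEquiv_apply_left,
        Fin.val_castAdd, i.2, if_true]
      rfl
    · rw [Matrix.fromBlocks_apply₂₁]
      simp only [Matrix.submatrix_apply, Matrix.of_apply, hQ, finSumFinEquiv_apply_left,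
        finSumFinEquiv_apply_right, Fin.val_castAdd, i.2, if_true, Fin.val_natAdd,
        Matrix.zero_apply]
      exact mod_coeff_zero hT hTd _ _ (by omega)
  · rcases x with a | a
    · rw [Matrix.fromBlocks_apply₁₂]
      simp only [Matrix.submatrix_apply, Matrix.of_apply, hQ, finSumFinEquiv_apply_left,
        finSumFinEquiv_apply_right, Fin.val_castAdd, Fin.val_natAdd]
      rw [if_neg (by omega)]
    · rw [Matrix.fromBlocks_apply₂₂]
      simp only [Matrix.submatrix_apply, Matrix.of_apply, hQ,
        finSumFinEquiv_apply_right, Fin.val_natAdd]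
      rw [if_neg (by omega), Matrix.one_apply, if_pos (Subsingleton.elim _ _)]
      have e1 : h + (a : ℕ) = T.natDegree := by omega
      rw [e1]
      exact hT.coeff_natDegree

lemma prod_erase_eq {M : Type*} [CommMonoid M] {n : ℕ} (m : Fin (n + 1)) (F : Fin (n + 1) → M) :
    ∏ i ∈ univ.erase m, F i = ∏ i : Fin n, F (m.succAbove i) := by
  have h1 : (univ : Finset (Fin (n + 1))).erase m = univ.map (Fin.succAboveEmb m) := by
    rw [Fin.univ_succAbove n m, erase_cons]
  rw [h1, prod_map]
  rfl

/-- The value at an eigenvector. -/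
lemma dd_eig {K : Type} [CommRing K] [CharP K 2] {h : ℕ} (y : Fin (h + 1) → K) (m : Fin (h + 1))
    (D : K[X]) (P : Fin (h + 1) → K[X])
    (hP : ∀ i : Fin h, P i.castSucc = D * X ^ (i : ℕ)) :
    dd (∏ i, (X - C (y i))) (Function.update P (Fin.last h) (∏ i ∈ univ.erase m, (X - C (y i))))
      = ∏ i ∈ univ.erase m, D.eval (y i) := by
  rcases subsingleton_or_nontrivial K with hR | hR
  · exact Subsingleton.elim _ _
  rw [prod_erase_eq m (fun i => (X - C (y i) : K[X])), prod_erase_eq m (fun i => D.eval (y i)),
    Fin.prod_univ_succAbove _ m]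
  rw [dd_factor (y m) (monic_prod_of_monic _ _ (fun i _ => monic_X_sub_C _))
    (natDegree_prod_lin (fun i : Fin h => y (m.succAbove i))) _ (Function.update_self _ _ _)]
  rw [← Pool.Agent.Helper57.CYC.dd_pow K (fun i : Fin h => y (m.succAbove i)) D]
  congr 1
  funext i
  rw [Function.update_of_ne (Fin.castSucc_lt_last i).ne, hP]

lemma dd_zero_col {R : Type*} [CommRing R] {n : ℕ} (S : R[X]) (A : Fin n → R[X]) (i : Fin n)
    (h : A i = 0) : dd S A = 0 := by
  rw [dd_eq]
  exact AlternatingMap.map_coord_zero _ i h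

theorem st_c3 : ST_C3 := by
  intro R K _ _ _ _ red α h hh S g f hFO hred y hy M e hgr Γ0 Γ1
  obtain ⟨h, rfl⟩ : ∃ n, h = n + 1 := ⟨h - 1, by omega⟩
  rcases subsingleton_or_nontrivial R with hR | hR
  · exact ⟨0, Subsingleton.elim _ _, by
      have : Subsingleton K := hred.subsingleton
      exact Subsingleton.elim _ _⟩
  have hg : ∀ m, h + 1 ≤ m → g.coeff m = 0 := by
    intro m hm
    exact coeff_eq_zero_of_degree_lt (lt_of_lt_of_le hFO.degg (by exact_mod_cast hm))
  have hf : f = ff S g α := hFO.eq
  have hSd := hFO.deg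
  have hS := hFO.monic
  set A : Fin (h + 1) → R[X] := fun i => if (i : ℕ) < h then Γ1 * X ^ (i : ℕ) else 0 with hA
  have hAl : A (Fin.last h) = 0 := by
    rw [hA]
    simp
  refine ⟨dd S (Function.update A (Fin.last h) g), ?_, ?_⟩
  · rw [hf, dd_odd_part hS hSd hg hFO.sq _ (e3 h)
      (fun i => if (i : ℕ) < h then Γ0 * X ^ (i : ℕ) else X ^ (h + 1)) A]
    · rw [dd_first hFO.sq S A, dd_zero_col S A _ hAl, zero_add,
        Finset.sum_eq_single (Fin.last h)]
      · congr 2
        funext i
        by_cases hi : i = Fin.last h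
        · subst hi
          rw [Function.update_self, Function.update_self]
          simp only [Fin.val_last, lt_irrefl, if_false]
          have h1 : (X ^ (h + 1) : R[X]) /ₘ S = 1 := by
            refine (div_modByMonic_unique 1 (X ^ (h + 1) - S) hS ⟨by ring, ?_⟩).1
            have h2 := X_pow_n_mod hS hSd
            rw [← h2]
            exact degree_modByMonic_lt _ hS
          rw [h1, mul_one]
        · rw [Function.update_of_ne hi, Function.update_of_ne hi]
      · intro i _ hi
        refine dd_zero_col S _ (Fin.last h) ?_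
        rw [Function.update_of_ne (Ne.symm hi), hAl]
      · intro hn
        exact absurd (mem_univ _) hn
    · intro j
      unfold col0
      rw [e3_inl, if_neg (by omega), one_mul]
      congr 1
      omega
    · intro i
      unfold col0
      rw [e3_inr, hA]
      by_cases hi : (i : ℕ) < h
      · simp only [if_pos hi]
        rw [if_pos (by omega)]
        simp only [map_mul, map_pow, expand_X]
        ring
      · simp only [if_neg hi]
        rw [if_neg (by omega)]
        simp only [map_zero, map_pow, expand_X, mul_zero, add_zero, one_mul]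
        rw [← pow_mul]
        congr 1
        omega
  · rw [Pool.Agent.Helper91.CYC.st_a1 R K red (h + 1) S hS, hy]
    have h1 : (fun j => (Function.update A (Fin.last h) g j).map red)
        = Function.update (fun j => (A j).map red) (Fin.last h)
          (∑ m ∈ M, C (e m) * ∏ i ∈ univ.erase m, (X - C (y i))) := by
      funext j
      by_cases hj : j = Fin.last h
      · subst hj
        rw [Function.update_self, Function.update_self, hgr]
      · rw [Function.update_of_ne hj, Function.update_of_ne hj]
    rw [h1, dd_update_sum]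
    refine sum_congr rfl (fun m _ => ?_)
    rw [dd_eig y m (Γ1.map red)]
    intro i
    simp only [hA]
    rw [if_pos (by simp)]
    simp

end C3

end Pool.Agent.Helper89.CYC
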